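import Pool.Agent.Wli.Lin

set_option autoImplicit false

namespace Pool.Agent.Results.MP_e2a513_co.DegreeBounded

/-- `G` has an induced wheel: an induced cycle of length at least `4` and a vertex outside it with
at least three neighbours on it. -/
def HasWheel {V : Type} (G : SimpleGraph V) : Prop :=
  ∃ n : ℕ, 4 ≤ n ∧ ∃ (c : SimpleGraph.cycleGraph n ↪g G) (h : V), h ∉ Set.range c ∧
    3 ≤ (G.neighborSet h ∩ Set.range c).ncard

/-- For every `s` there is `c` such that in a wheel-free graph without induced `K_{s,s}` every induced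
subgraph `H` has chromatic number at most `c ω(H)` and, if nonempty, a vertex of degree at most
`c ω(H)`. -/
theorem result : ∀ s : ℕ, ∃ c : ℕ, ∀ (V : Type) [Finite V] (G : SimpleGraph V),
    ¬ HasWheel G → IsEmpty (completeBipartiteGraph (Fin s) (Fin s) ↪g G) →
    ∀ S : Set V, (G.induce S).chromaticNumber ≤ (c * (G.induce S).cliqueNum : ℕ) ∧
      (S.Nonempty → ∃ v, ((G.induce S).neighborSet v).ncard ≤ c * (G.induce S).cliqueNum) := by
  classical
  have hW : ∀ {V : Type} [Finite V] (G : SimpleGraph V), Whl.HasWheel G → HasWheel G := by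
    rintro V _ G ⟨n, hn, c, h, hh, i, j, k, hij, hik, hjk, h1, h2, h3⟩
    refine ⟨n, hn, c, h, hh, ?_⟩
    have hsub : ({c i, c j, c k} : Set V) ⊆ G.neighborSet h ∩ Set.range c := by
      rintro v (rfl | rfl | rfl)
      · exact ⟨h1, ⟨i, rfl⟩⟩
      · exact ⟨h2, ⟨j, rfl⟩⟩
      · exact ⟨h3, ⟨k, rfl⟩⟩
    have hcard : ({c i, c j, c k} : Set V).ncard = 3 := by
      have hc : ({c i, c j, c k} : Set V) = (({c i, c j, c k} : Finset V) : Set V) := by
        push_cast
        rfl
      rw [hc, Set.ncard_coe_finset]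
      rw [Finset.card_eq_three]
      exact ⟨_, _, _, fun e => hij (c.injective e), fun e => hik (c.injective e),
        fun e => hjk (c.injective e), rfl⟩
    rw [← hcard]
    exact Set.ncard_le_ncard hsub (Set.toFinite _)
  have hsubw : ∀ {V : Type} [Finite V] (G : SimpleGraph V) (S : Set V),
      HasWheel (G.induce S) → HasWheel G := by
    rintro V _ G S ⟨n, hn, c, h, hh, h3⟩
    refine ⟨n, hn, (SimpleGraph.Embedding.induce S).comp c, h, ?_, ?_⟩
    · rintro ⟨i, hi⟩
      exact hh ⟨i, Subtype.ext hi⟩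
    · refine h3.trans ?_
      rw [← Set.ncard_image_of_injective _ (Subtype.val_injective (p := fun v => v ∈ S))]
      refine Set.ncard_le_ncard ?_ (Set.toFinite _)
      rintro _ ⟨v, ⟨hv, i, rfl⟩, rfl⟩
      exact ⟨hv, ⟨i, rfl⟩⟩
  intro s
  obtain ⟨c, hc⟩ := Wli.linear s
  refine ⟨c, ?_⟩
  intro V _ G hw he S
  obtain ⟨h1, h2⟩ := hc (G.induce S) (G.induce S).cliqueNum
    (fun h => hw (hsubw G S (hW _ h))) (by
      intro K hK
      have h1 := hK.isClique.card_le_cliqueNum
      have h2 := hK.card_eq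
      omega) ⟨fun e => he.false ((SimpleGraph.Embedding.induce S).comp e)⟩
  exact ⟨SimpleGraph.chromaticNumber_le_iff_colorable.2 h1, fun hS => h2 hS.to_subtype⟩

end Pool.Agent.Results.MP_e2a513_co.DegreeBounded
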