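import Pool.Agent.Wdd.Main

set_option autoImplicit false

namespace Pool.Agent.Results.MP_e2a513_co.Dumbbells

/-- `G` has an induced wheel: an induced cycle of length at least `4` and a vertex outside it with
at least three neighbours on it. -/
def HasWheel {V : Type} (G : SimpleGraph V) : Prop :=
  ∃ n : ℕ, 4 ≤ n ∧ ∃ (c : SimpleGraph.cycleGraph n ↪g G) (h : V), h ∉ Set.range c ∧
    3 ≤ (G.neighborSet h ∩ Set.range c).ncard

/-- The disjoint union of `H₁` and `H₂` together with the edge `ab`. -/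
def link {α β : Type} (H₁ : SimpleGraph α) (H₂ : SimpleGraph β) (a : α) (b : β) :
    SimpleGraph (α ⊕ β) where
  Adj
    | Sum.inl x, Sum.inl y => H₁.Adj x y
    | Sum.inr x, Sum.inr y => H₂.Adj x y
    | Sum.inl x, Sum.inr y => x = a ∧ y = b
    | Sum.inr x, Sum.inl y => y = a ∧ x = b
  symm := ⟨by
    rintro (x | x) (y | y) h
    · exact SimpleGraph.Adj.symm (G := H₁) h
    · exact h
    · exact h
    · exact SimpleGraph.Adj.symm (G := H₂) h⟩
  loopless := ⟨by
    rintro (x | x) h
    · exact H₁.loopless.irrefl x h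
    · exact H₂.loopless.irrefl x h⟩

/-- The tailed biclique: `K_{s+1,s+1}` and a path with `l + 1` vertices, joined by an edge from a
vertex of `K_{s+1,s+1}` to the first vertex of the path. -/
def Tailed (s l : ℕ) : SimpleGraph ((Fin (s + 1) ⊕ Fin (s + 1)) ⊕ Fin (l + 1)) :=
  link (completeBipartiteGraph (Fin (s + 1)) (Fin (s + 1))) (SimpleGraph.pathGraph (l + 1))
    (Sum.inl 0) 0

/-- The dumbbell: the tailed biclique `Tailed s n` and a second `K_{s+1,s+1}`, joined by an edge
from the last vertex of the tail to a vertex of the second `K_{s+1,s+1}`. -/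
def Dumbbell (s n : ℕ) :
    SimpleGraph (((Fin (s + 1) ⊕ Fin (s + 1)) ⊕ Fin (n + 1)) ⊕ (Fin (s + 1) ⊕ Fin (s + 1))) :=
  link (Tailed s n) (completeBipartiteGraph (Fin (s + 1)) (Fin (s + 1))) (Sum.inr (Fin.last n))
    (Sum.inl 0)

/-- The images of `e` and `e'` are anticomplete in `G`: no common vertex and no edge between. -/
def Anticomplete {V α β : Type} (G : SimpleGraph V) (e : α → V) (e' : β → V) : Prop :=
  ∀ x y, e x ≠ e' y ∧ ¬ G.Adj (e x) (e' y)

/-- For all `s`, `l`, `m` there is `c` such that in a wheel-free graph without `m` induced dumbbells,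
pairwise anticomplete and each with a link of more than `l` vertices, every induced subgraph `H` has
chromatic number at most `c ⌈ω(H) / 2⌉`. -/
theorem result : ∀ s l m : ℕ, ∃ c : ℕ, ∀ (V : Type) [Finite V] (G : SimpleGraph V),
    ¬ HasWheel G →
    (¬ ∃ (n : Fin m → ℕ) (d : ∀ i, Dumbbell s (n i) ↪g G), (∀ i, l ≤ n i) ∧
      ∀ i j, i ≠ j → Anticomplete G (d i) (d j)) →
    ∀ S : Set V, (G.induce S).chromaticNumber ≤ (c * (((G.induce S).cliqueNum + 1) / 2) : ℕ) := by
  classical
  have hW : ∀ {V : Type} [Finite V] (G : SimpleGraph V), Whl.HasWheel G → HasWheel G := by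
    rintro V _ G ⟨n, hn, c, h, hh, i, j, k, hij, hik, hjk, h1, h2, h3⟩
    refine ⟨n, hn, c, h, hh, ?_⟩
    have hsub : ({c i, c j, c k} : Set V) ⊆ G.neighborSet h ∩ Set.range c := by
      rintro v (rfl | rfl | rfl)
      · exact ⟨h1, ⟨i, rfl⟩⟩
      · exact ⟨h2, ⟨j, rfl⟩⟩
      · exact ⟨h3, ⟨k, rfl⟩⟩
    have hcard : ({c i, c j, c k} : Set V).ncard = 3 := by
      have hc : ({c i, c j, c k} : Set V) = (({c i, c j, c k} : Finset V) : Set V) := by
        push_cast
        rfl
      rw [hc, Set.ncard_coe_finset]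
      rw [Finset.card_eq_three]
      exact ⟨_, _, _, fun e => hij (c.injective e), fun e => hik (c.injective e),
        fun e => hjk (c.injective e), rfl⟩
    rw [← hcard]
    exact Set.ncard_le_ncard hsub (Set.toFinite _)
  intro s l m
  obtain ⟨c, hc⟩ := Wdd.main 2 s l m
  refine ⟨c, ?_⟩
  intro V _ G hw he S
  rcases Set.eq_empty_or_nonempty S with h0 | hS
  · subst h0
    rw [SimpleGraph.chromaticNumber_eq_zero_of_isEmpty]
    exact zero_le
  obtain ⟨H, hH⟩ : ∃ H, H = G.induce S := ⟨_, rfl⟩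
  rw [← hH]
  have hwH : ¬ Whl.HasWheel H := fun h => hw (hW _ (Wtb.wheel_induce S (hH ▸ h)))
  have heH : ¬ ∃ (n : Fin m → ℕ) (d : ∀ i, Wtb.Dumbbell s (n i) ↪g H), (∀ i, l ≤ n i) ∧
      ∀ i j, i ≠ j → Wtb.Anti H (d i) (d j) := by
    subst hH
    rintro ⟨n, d, h1, h2⟩
    set ι : G.induce S ↪g G := SimpleGraph.Embedding.induce S with hι
    refine he ⟨n, fun i => ι.comp (d i), h1, ?_⟩
    intro i j hij x y
    exact ⟨fun h => (h2 i j hij x y).1 (ι.injective h), fun h => (h2 i j hij x y).2 h⟩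
  have hK : H.CliqueFree (H.cliqueNum + 1) := by
    intro K hK
    have h1 := hK.isClique.card_le_cliqueNum
    have h2 := hK.card_eq
    omega
  have hw1 : 1 ≤ H.cliqueNum := by
    obtain ⟨v, hv⟩ := hS
    have h1 : H.IsClique (({⟨v, hv⟩} : Finset S) : Set S) := by
      intro x hx y hy hxy
      rw [Finset.mem_coe, Finset.mem_singleton] at hx hy
      exact absurd (hx.trans hy.symm) hxy
    have h2 := h1.card_le_cliqueNum
    rwa [Finset.card_singleton] at h2
  obtain ⟨q, hq⟩ : ∃ q, q = (H.cliqueNum + 1) / 2 := ⟨_, rfl⟩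
  have hq0 : 0 < q := by omega
  rw [← hq]
  obtain ⟨g, hg⟩ := Wsp.cel hwH hK hq0 (fun _ => 2) (fun _ => le_rfl) (by
    rw [Finset.sum_const, Finset.card_univ, Fintype.card_fin, smul_eq_mul]
    omega) _ Set.univ le_rfl
  refine SimpleGraph.chromaticNumber_le_iff_colorable.2 ?_
  have hcol : Wtb.Col H Set.univ (q * c) := by
    refine Wsp.fib (fun v => (g v : ℕ)) (fun x _ => (g x).2) ?_
    intro j hj
    refine (Wtb.Col.of_colorable (S := {x | g x = ⟨j, hj⟩}) (hc (H.induce {x | g x = ⟨j, hj⟩})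
      (fun h => hwH (Wtb.wheel_induce _ h)) ?_ ?_)).mono ?_ le_rfl
    · intro T hT
      have h1 := hg (T.map (Function.Embedding.subtype _)) (fun _ _ => trivial) (by
        intro x hx y hy hxy
        obtain ⟨x', hx', rfl⟩ := Finset.mem_map.1 hx
        obtain ⟨y', hy', rfl⟩ := Finset.mem_map.1 hy
        exact hT.isClique hx' hy' (fun he => hxy (congrArg _ he))) ⟨j, hj⟩ (by
        intro x hx
        obtain ⟨x', _, rfl⟩ := Finset.mem_map.1 hx
        exact x'.2)
      rw [Finset.card_map, hT.card_eq] at h1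
      omega
    · rintro ⟨n, d, h1, h2⟩
      set ι : H.induce {x | g x = ⟨j, hj⟩} ↪g H := SimpleGraph.Embedding.induce _ with hι
      refine heH ⟨n, fun i => ι.comp (d i), h1, ?_⟩
      intro i i' hij x y
      exact ⟨fun h => (h2 i i' hij x y).1 (ι.injective h), fun h => (h2 i i' hij x y).2 h⟩
    · rintro x ⟨_, hx⟩
      exact Fin.ext hx
  rw [Nat.mul_comm c q]
  exact hcol.colorable

end Pool.Agent.Results.MP_e2a513_co.Dumbbells
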