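import Pool.Agent.Wsp.Dir

set_option autoImplicit false

namespace Pool.Agent.Results.MP_e2a513_co.ExtremeVertices

/-- `G` has an induced wheel: an induced cycle of length at least `4` and a vertex outside it with
at least three neighbours on it. -/
def HasWheel {V : Type} (G : SimpleGraph V) : Prop :=
  ∃ n : ℕ, 4 ≤ n ∧ ∃ (c : SimpleGraph.cycleGraph n ↪g G) (h : V), h ∉ Set.range c ∧
    3 ≤ (G.neighborSet h ∩ Set.range c).ncard

/-- The neighbourhood of `z` is the disjoint union of a clique `K` and a stable set, with no edge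
between them: `K` contains both ends of every edge between neighbours of `z`. -/
def CliqueAndStable {V : Type} (G : SimpleGraph V) (z : V) : Prop :=
  ∃ K ⊆ G.neighborSet z, G.IsClique K ∧
    ∀ x ∈ G.neighborSet z, ∀ y ∈ G.neighborSet z, G.Adj x y → x ∈ K ∧ y ∈ K

/-- For every vertex `v` of a wheel-free graph `G` and every vertex `u` outside the closed
neighbourhood `N[v]` of `v`, the component of `u` in `G - N[v]` contains a vertex `z` whose
neighbourhood in `G` is the disjoint union of a clique and a stable set. In particular a wheel-free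
graph that is not complete has two nonadjacent vertices of this kind. -/
theorem result : ∀ (V : Type) [Finite V] (G : SimpleGraph V), ¬ HasWheel G →
    (∀ u v : V, u ≠ v → ¬ G.Adj v u → ∃ z : V, CliqueAndStable G z ∧
      Relation.ReflTransGen (fun x y => G.Adj x y ∧ y ≠ v ∧ ¬ G.Adj v y) u z) ∧
    (G ≠ ⊤ → ∃ z z' : V, z ≠ z' ∧ ¬ G.Adj z z' ∧ CliqueAndStable G z ∧ CliqueAndStable G z') := by
  classical
  have hW : ∀ {V : Type} [Finite V] (G : SimpleGraph V), Whl.HasWheel G → HasWheel G := by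
    rintro V _ G ⟨n, hn, c, h, hh, i, j, k, hij, hik, hjk, h1, h2, h3⟩
    refine ⟨n, hn, c, h, hh, ?_⟩
    have hsub : ({c i, c j, c k} : Set V) ⊆ G.neighborSet h ∩ Set.range c := by
      rintro v (rfl | rfl | rfl)
      · exact ⟨h1, ⟨i, rfl⟩⟩
      · exact ⟨h2, ⟨j, rfl⟩⟩
      · exact ⟨h3, ⟨k, rfl⟩⟩
    have hcard : ({c i, c j, c k} : Set V).ncard = 3 := by
      have hc : ({c i, c j, c k} : Set V) = (({c i, c j, c k} : Finset V) : Set V) := by
        push_cast
        rfl
      rw [hc, Set.ncard_coe_finset]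
      rw [Finset.card_eq_three]
      exact ⟨_, _, _, fun e => hij (c.injective e), fun e => hik (c.injective e),
        fun e => hjk (c.injective e), rfl⟩
    rw [← hcard]
    exact Set.ncard_le_ncard hsub (Set.toFinite _)
  intro V _ G hw
  have main : ∀ u v : V, u ≠ v → ¬ G.Adj v u → ∃ z : V, CliqueAndStable G z ∧
      Relation.ReflTransGen (fun x y => G.Adj x y ∧ y ≠ v ∧ ¬ G.Adj v y) u z := by
    intro u v huv huv'
    obtain ⟨z, hz, K, k1, k2, k3⟩ := Wsp.dirac2 (fun h => hw (hW _ h)) huv huv'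
    exact ⟨z, ⟨K, k1, fun x hx y hy hxy => k2 x hx y hy hxy,
      fun x hx y hy hxy => ⟨k3 x y hx hy hxy, k3 y x hy hx hxy.symm⟩⟩, hz⟩
  refine ⟨main, fun htop => ?_⟩
  obtain ⟨a, b, hab, hab'⟩ : ∃ a b : V, a ≠ b ∧ ¬ G.Adj a b := by
    by_contra hc
    push Not at hc
    apply htop
    ext a b
    rw [SimpleGraph.top_adj]
    exact ⟨fun h => h.ne, fun h => hc a b h⟩
  have off : ∀ {u v z : V}, u ≠ v → ¬ G.Adj v u →
      Relation.ReflTransGen (fun x y => G.Adj x y ∧ y ≠ v ∧ ¬ G.Adj v y) u z →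
      z ≠ v ∧ ¬ G.Adj v z := by
    intro u v z h1 h2 h
    rcases Relation.ReflTransGen.cases_tail h with h | ⟨y, _, h⟩
    · rw [h]
      exact ⟨h1, h2⟩
    · exact h.2
  obtain ⟨z, hz, h1⟩ := main b a hab.symm hab'
  obtain ⟨h2, h3⟩ := off hab.symm hab' h1
  obtain ⟨z', hz', h4⟩ := main a z h2.symm (fun h => h3 h.symm)
  obtain ⟨h5, h6⟩ := off h2.symm (fun h => h3 h.symm) h4
  exact ⟨z, z', h5.symm, h6, hz, hz'⟩

end Pool.Agent.Results.MP_e2a513_co.ExtremeVertices
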