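import Pool.Agent.Wsp.Cel

set_option autoImplicit false

namespace Pool.Agent.Results.MP_e2a513_co.Reduction

/-- `G` has an induced wheel: an induced cycle of length at least `4` and a vertex outside it with
at least three neighbours on it. -/
def HasWheel {V : Type} (G : SimpleGraph V) : Prop :=
  ∃ n : ℕ, 4 ≤ n ∧ ∃ (c : SimpleGraph.cycleGraph n ↪g G) (h : V), h ∉ Set.range c ∧
    3 ≤ (G.neighborSet h ∩ Set.range c).ncard

/-- If `s 0, .., s (q - 1)` are at least `2` and their sum is at least `ω(G)`, then the vertex set of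
a nonempty wheel-free graph `G` is partitioned into `q` parts of clique numbers at most `s 0, ..,
s (q - 1)`, and one of the parts, `H`, has `χ(G) ≤ q χ(H)`. For `s i = 2` and `q = ⌈ω(G) / 2⌉` the
parts are triangle-free. -/
theorem result : ∀ (V : Type) [Finite V] [Nonempty V] (G : SimpleGraph V), ¬ HasWheel G →
    ∀ (q : ℕ) (s : Fin q → ℕ), (∀ i, 2 ≤ s i) → G.cliqueNum ≤ ∑ i, s i →
      ∃ f : V → Fin q, (∀ i, (G.induce {v | f v = i}).CliqueFree (s i + 1)) ∧
        ∃ i, G.chromaticNumber ≤ q * (G.induce {v | f v = i}).chromaticNumber := by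
  classical
  have hW : ∀ {V : Type} [Finite V] (G : SimpleGraph V), Whl.HasWheel G → HasWheel G := by
    rintro V _ G ⟨n, hn, c, h, hh, i, j, k, hij, hik, hjk, h1, h2, h3⟩
    refine ⟨n, hn, c, h, hh, ?_⟩
    have hsub : ({c i, c j, c k} : Set V) ⊆ G.neighborSet h ∩ Set.range c := by
      rintro v (rfl | rfl | rfl)
      · exact ⟨h1, ⟨i, rfl⟩⟩
      · exact ⟨h2, ⟨j, rfl⟩⟩
      · exact ⟨h3, ⟨k, rfl⟩⟩
    have hcard : ({c i, c j, c k} : Set V).ncard = 3 := by
      have hc : ({c i, c j, c k} : Set V) = (({c i, c j, c k} : Finset V) : Set V) := by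
        push_cast
        rfl
      rw [hc, Set.ncard_coe_finset]
      rw [Finset.card_eq_three]
      exact ⟨_, _, _, fun e => hij (c.injective e), fun e => hik (c.injective e),
        fun e => hjk (c.injective e), rfl⟩
    rw [← hcard]
    exact Set.ncard_le_ncard hsub (Set.toFinite _)
  intro V _ _ G hw q s hs hsum
  have hK : G.CliqueFree (G.cliqueNum + 1) := by
    intro K hK
    have h1 := hK.isClique.card_le_cliqueNum
    have h2 := hK.card_eq
    omega
  have hw1 : 1 ≤ G.cliqueNum := by
    obtain ⟨v⟩ := ‹Nonempty V›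
    have h1 : G.IsClique (({v} : Finset V) : Set V) := by
      intro x hx y hy hxy
      rw [Finset.mem_coe, Finset.mem_singleton] at hx hy
      exact absurd (hx.trans hy.symm) hxy
    have h2 := h1.card_le_cliqueNum
    rwa [Finset.card_singleton] at h2
  have hq : 0 < q := by
    rcases Nat.eq_zero_or_pos q with h0 | h0
    · subst h0
      simp only [Finset.univ_eq_empty, Finset.sum_empty] at hsum
      omega
    · exact h0
  obtain ⟨g, hg⟩ := Wsp.cel (fun h => hw (hW _ h)) hK hq s hs hsum _ Set.univ le_rfl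
  refine ⟨g, ?_, ?_⟩
  · intro i T hT
    have h1 := hg (T.map (Function.Embedding.subtype _)) (fun _ _ => trivial) (by
      intro x hx y hy hxy
      obtain ⟨x', hx', rfl⟩ := Finset.mem_map.1 hx
      obtain ⟨y', hy', rfl⟩ := Finset.mem_map.1 hy
      exact hT.isClique hx' hy' (fun he => hxy (congrArg _ he))) i (by
      intro x hx
      obtain ⟨x', _, rfl⟩ := Finset.mem_map.1 hx
      exact x'.2)
    rw [Finset.card_map, hT.card_eq] at h1
    omega
  · have : Nonempty (Fin q) := ⟨⟨0, hq⟩⟩
    obtain ⟨i, hi⟩ := Finite.exists_max (fun i : Fin q =>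
      (G.induce {v | g v = i}).chromaticNumber)
    refine ⟨i, ?_⟩
    have hfin : (G.induce {v | g v = i}).chromaticNumber ≠ ⊤ := by
      rw [SimpleGraph.chromaticNumber_ne_top_iff_exists]
      have := Fintype.ofFinite {v | g v = i}
      exact ⟨_, SimpleGraph.colorable_of_fintype _⟩
    obtain ⟨m, hm⟩ := ENat.ne_top_iff_exists.1 hfin
    rw [← hm] at hi ⊢
    have hcol : Wtb.Col G Set.univ (q * m) := by
      refine Wsp.fib (fun v => (g v : ℕ)) (fun x _ => (g x).2) ?_
      intro j hj
      refine (Wtb.Col.of_colorable (SimpleGraph.chromaticNumber_le_iff_colorable.1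
        (hi ⟨j, hj⟩))).mono ?_ le_rfl
      rintro x ⟨_, hx⟩
      exact Fin.ext hx
    have h4 := SimpleGraph.chromaticNumber_le_iff_colorable.2 hcol.colorable
    push_cast at h4
    exact h4

end Pool.Agent.Results.MP_e2a513_co.Reduction
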